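import Mathlib
import Pool.Agent.Helper42.DB.Goals3

set_option autoImplicit false

/-!
# Dispersing billiards: packet TRF (periodic orbits of a table and of its refinement)
-/

namespace Pool.Agent.Helper42.DB.PkTRF

open Set Filter Topology

variable {C : CTab} {S : Sys}

/-- The phase point of a state. -/
noncomputable def Phi (x : St S) : ℂ × ℂ := (x.pos, ee x.th)

lemma ee_add_bk (u φ : ℝ) : ee (u + φ) + ee (u - φ) = ((2 * Real.cos φ : ℝ) : ℂ) * ee u := by
  apply Complex.ext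
  · rw [Complex.add_re, Complex.re_ofReal_mul]
    simp only [ee_re, Real.cos_add, Real.cos_sub]; ring
  · rw [Complex.add_im, Complex.im_ofReal_mul]
    simp only [ee_im, Real.sin_add, Real.sin_sub]; ring

lemma dt_ofReal_mul (v w : ℂ) (t : ℝ) : dt ((t : ℂ) * v) w = t * dt v w := by
  rw [← Complex.real_smul, dt_smul_left]

lemma fl_step {D : Set ℂ} (hR : Refines C S D) {x y : St S} (h : Fl x y) :
    BStep C.Y C.RP False (Phi x) (Phi y) := by
  obtain ⟨hx, hy, he, t, ht, hp, hs⟩ := h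
  have h1 : dt (ee x.th) (ee x.u) = Real.cos x.φ := by
    rw [dt_ee_ee, St.th]
    rw [show x.u - (x.u + x.φ) = -x.φ by ring, Real.cos_neg]
  have h2 : dt (ee x.th) (ee y.u) = -Real.cos y.φ := by
    rw [he, dt_neg_left, dt_ee_ee, St.bk]
    rw [show y.u - (y.u - y.φ) = y.φ by ring]
  refine ⟨norm_ee _, ee x.u, ee y.u, t, hR.2.1 x.i x.u hx.1, hR.2.1 y.i y.u hy.1, ht, ?_, ?_,
    Or.inl ?_, Or.inl ?_, ?_⟩
  · show y.pos = x.pos + (t : ℂ) * ee x.th
    rw [hp, Complex.real_smul]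
  · intro r hr
    have := hs r hr
    rw [Complex.real_smul, hR.1] at this
    exact this
  · show 0 < dt (ee x.th) (ee x.u)
    rw [h1]; exact hx.cos_pos
  · show dt (ee x.th) (ee y.u) < 0
    rw [h2]; have := hy.cos_pos; linarith
  · show ee y.th = ee x.th - ((2 * dt (ee x.th) (ee y.u) : ℝ) : ℂ) * ee y.u
    have h3 := ee_add_bk y.u y.φ
    rw [h2, he]
    rw [St.bk, St.th]
    rw [show (2 * -Real.cos y.φ : ℝ) = -(2 * Real.cos y.φ) by ring, Complex.ofReal_neg, neg_mul,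
      ← h3]
    ring

lemma Phi_inj {x y : St S} (hx : x.Ok) (hy : y.Ok) (h : Phi x = Phi y) : x = y := by
  have h1 : x.pos = y.pos := congrArg Prod.fst h
  have h2 : ee x.th = ee y.th := congrArg Prod.snd h
  obtain ⟨hi, hu⟩ := S.inj x.i y.i x.u hx.1 y.u (Ioo_subset_Icc_self hy.1) h1
  rw [ee_eq_ee_iff, St.th, St.th, hu] at h2
  have hxa := abs_lt.mp hx.2
  have hya := abs_lt.mp hy.2
  have hpi := Real.pi_pos
  have h3 : y.u + x.φ - (y.u + y.φ) = 0 := by
    apply (Real.cos_eq_one_iff_of_lt_of_lt _ _).mp h2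
    · linarith
    · linarith
  exact St.ext hi hu (by linarith)

lemma lift_aux (u : ℝ) (v : ℂ) (hv : ‖v‖ = 1) (h : 0 < dt v (ee u)) :
    ∃ φ : ℝ, |φ| < Real.pi / 2 ∧ ee (u + φ) = v := by
  set z : ℂ := v * (starRingEnd ℂ) (ee u) with hz
  have hzn : ‖z‖ = 1 := by rw [hz, norm_mul, RCLike.norm_conj, hv, norm_ee, one_mul]
  have hre : z.re = dt v (ee u) := by
    simp only [hz, dt, Complex.mul_re, Complex.conj_re, Complex.conj_im]; ring
  refine ⟨z.arg, ?_, ?_⟩
  · rw [Complex.abs_arg_lt_pi_div_two_iff]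
    left; rw [hre]; exact h
  · have h1 : ee (u + z.arg) = ee u * z := by
      have hc : Real.cos z.arg = z.re := by
        have := Complex.norm_mul_cos_arg z
        rw [hzn, one_mul] at this; exact this
      have hs : Real.sin z.arg = z.im := by
        have := Complex.norm_mul_sin_arg z
        rw [hzn, one_mul] at this; exact this
      apply Complex.ext
      · rw [Complex.mul_re, ee_re, ee_re, ee_im, Real.cos_add, hc, hs]
      · rw [Complex.mul_im, ee_im, ee_re, ee_im, Real.sin_add, hc, hs]; ring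
    have h2 : ee u * (starRingEnd ℂ) (ee u) = 1 := by
      rw [Complex.mul_conj, Complex.normSq_eq_norm_sq, norm_ee]; norm_num
    rw [h1, hz]
    calc ee u * (v * (starRingEnd ℂ) (ee u)) = v * (ee u * (starRingEnd ℂ) (ee u)) := by ring
      _ = v := by rw [h2, mul_one]

lemma lift {D : Set ℂ} (hR : Refines C S D) {X : ℂ × ℂ} {N : ℂ} (hv : ‖X.2‖ = 1)
    (hN : (X.1, N) ∈ C.RP) (hD : X.1 ∈ D) (h : 0 < dt X.2 N) :
    ∃ x : St S, x.Ok ∧ Phi x = X := by
  obtain ⟨i, u, hu, hp, hN'⟩ := hR.2.2 X.1 N hN hD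
  rw [← hN'] at h
  obtain ⟨φ, hφ, he⟩ := lift_aux u X.2 hv h
  refine ⟨⟨i, u, φ⟩, ⟨hu, hφ⟩, ?_⟩
  exact Prod.ext hp he

lemma step_mono {Y : Set ℂ} {RP : Set (ℂ × ℂ)} {x y : ℂ × ℂ} (h : BStep Y RP False x y) :
    BStep Y RP True x y := by
  obtain ⟨h0, N, M, τ, h1, h2, h3, h4, h5, h6, h7, h8⟩ := h
  refine ⟨h0, N, M, τ, h1, h2, h3, h4, h5, ?_, ?_, h8⟩
  · rcases h6 with h | h
    · exact Or.inl h
    · exact h.1.elim
  · rcases h7 with h | h
    · exact Or.inl h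
    · exact h.1.elim

lemma step_fl {D : Set ℂ} (hR : Refines C S D) {x y : St S} (hx : x.Ok) (hy : y.Ok)
    (hD : y.pos ∈ D) (h : BStep C.Y C.RP False (Phi x) (Phi y)) : Fl x y := by
  obtain ⟨h0, N, M, τ, h1, h2, h3, h4, h5, h6, h7, h8⟩ := h
  refine ⟨hx, hy, ?_, τ, h3, ?_, ?_⟩
  · obtain ⟨j, u, hu, hp, hM⟩ := hR.2.2 y.pos M h2 hD
    obtain ⟨hi, hu'⟩ := S.inj y.i j y.u hy.1 u (Ioo_subset_Icc_self hu) hp.symm
    have hM' : ee y.u = M := by rw [hu', hM]
    have h8' : ee y.th = ee x.th - ((2 * dt (ee x.th) M : ℝ) : ℂ) * M := h8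
    have h9 : dt (ee y.th) M = - dt (ee x.th) M := by
      rw [h8', dt_sub_left, dt_ofReal_mul, ← hM', dt_self, norm_ee]; ring
    have h10 : dt (ee y.th) M = Real.cos y.φ := by
      rw [← hM', dt_ee_ee, St.th, show y.u - (y.u + y.φ) = -y.φ by ring, Real.cos_neg]
    have h11 := ee_add_bk y.u y.φ
    have h12 : ee y.bk = ((2 * Real.cos y.φ : ℝ) : ℂ) * ee y.u - ee y.th := by
      rw [← h11, St.bk, St.th]; ring
    rw [h12, h8', ← h10, h9, hM']
    push_cast
    ring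
  · rw [Complex.real_smul]; exact h4
  · intro s hs
    rw [Complex.real_smul, hR.1]; exact h5 s hs

lemma porb_ok {O : Set (St S)} (h : POrb S O) : ∀ x ∈ O, x.Ok := by
  obtain ⟨z, p, _, hz, _, rfl⟩ := h
  rintro _ ⟨k, rfl⟩
  exact (hz k).1

lemma orb_image {D : Set ℂ} (hR : Refines C S D) {O : Set (St S)} (h : POrb S O) :
    BOrb C.Y C.RP False (Phi '' O) := by
  obtain ⟨z, p, hp, hz, hper, rfl⟩ := h
  refine ⟨fun k => Phi (z k), p, hp, fun k => fl_step hR (hz k), fun k => ?_, ?_⟩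
  · show Phi (z (k + p)) = Phi (z k)
    rw [hper]
  · rw [← range_comp]; rfl

lemma orb_lift (hR : Refines C S C.DD) {O : Set (ℂ × ℂ)} (h : BOrb C.Y C.RP False O) :
    ∃ O' : Set (St S), POrb S O' ∧ Phi '' O' = O := by
  obtain ⟨z, p, hp, hz, hper, rfl⟩ := h
  have hT : BOrb C.Y C.RP True (range z) :=
    ⟨z, p, hp, fun k => step_mono (hz k), hper, rfl⟩
  have hD : ∀ k, (z k).1 ∈ C.DD := fun k => ⟨range z, hT, (z k).2, ⟨k, rfl⟩⟩
  have hx : ∀ k, ∃ x : St S, x.Ok ∧ Phi x = z k := by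
    intro k
    obtain ⟨h0, N, M, τ, h1, h2, h3, h4, h5, h6, h7, h8⟩ := hz k
    apply lift hR h0 h1 (hD k)
    rcases h6 with h | h
    · exact h
    · exact h.1.elim
  choose x hok hPhi using hx
  refine ⟨range x, ⟨x, p, hp, fun k => ?_, fun k => ?_, rfl⟩, ?_⟩
  · apply step_fl hR (hok k) (hok (k + 1))
    · have : (Phi (x (k + 1))).1 = (z (k + 1)).1 := by rw [hPhi]
      rw [show (x (k + 1)).pos = (Phi (x (k + 1))).1 from rfl, this]
      exact hD (k + 1)
    · rw [hPhi, hPhi]; exact hz k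
  · apply Phi_inj (hok _) (hok _)
    rw [hPhi, hPhi, hper]
  · rw [← range_comp]
    congr 1
    funext k
    exact hPhi k

theorem thm : G_TRF := by
  intro C S hR n
  have hinj : ∀ O : Set (St S), POrb S O → Set.InjOn Phi O := by
    intro O hO x hx y hy hxy
    exact Phi_inj (porb_ok hO x hx) (porb_ok hO y hy) hxy
  have hset : {O : Set (ℂ × ℂ) | BOrb C.Y C.RP False O ∧ O.ncard ≤ n} =
      (fun O : Set (St S) => Phi '' O) '' {O : Set (St S) | POrb S O ∧ O.ncard ≤ n} := by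
    ext O
    constructor
    · rintro ⟨hO, hn⟩
      obtain ⟨O', hO', rfl⟩ := orb_lift hR hO
      refine ⟨O', ⟨hO', ?_⟩, rfl⟩
      rw [Set.ncard_image_of_injOn (hinj O' hO')] at hn
      exact hn
    · rintro ⟨O', ⟨hO', hn⟩, rfl⟩
      refine ⟨orb_image hR hO', ?_⟩
      show (Phi '' O').ncard ≤ n
      rw [Set.ncard_image_of_injOn (hinj O' hO')]
      exact hn
  unfold bf fS
  rw [hset, Set.ncard_image_of_injOn]
  rintro O ⟨hO, _⟩ O' ⟨hO', _⟩ h
  have h' : Phi '' O = Phi '' O' := h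
  ext x
  constructor
  · intro hx
    have : Phi x ∈ Phi '' O' := by rw [← h']; exact ⟨x, hx, rfl⟩
    obtain ⟨y, hy, hyx⟩ := this
    rw [← Phi_inj (porb_ok hO' y hy) (porb_ok hO x hx) hyx]
    exact hy
  · intro hx
    have : Phi x ∈ Phi '' O := by rw [h']; exact ⟨x, hx, rfl⟩
    obtain ⟨y, hy, hyx⟩ := this
    rw [← Phi_inj (porb_ok hO y hy) (porb_ok hO' x hx) hyx]
    exact hy

end Pool.Agent.Helper42.DB.PkTRF
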